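import Pool.Agent.H23.CMC.Targets

/-!
# The fourth moment of CM Hilbert modular forms, row G_MOS: the second moment with partial sums of
the coefficients

Adaptation of `Pool/Agent/H72/CM4/MOS.lean` to a family of characters of arbitrary conductors.
-/

set_option autoImplicit false

open NumberField MeasureTheory Set Filter Complex
open scoped nonZeroDivisors Real
open Pool.Agent.H23.CMC
open Pool.Agent.H65.CM4 (Sq nm dg Pl rv)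
open Pool.Agent.H65.CMC (Emb ty PrTo IsHk ms IsLk gg GM cG Km Idx cdc Fmc lc)
open Pool.Agent.H23.CM4 (nJ Jd Nr wB Full)
open Pool.Agent.H23.LC (HG ag)

namespace Pool.Agent.H35.CMC

/-- Cauchy-Schwarz with the weights `ν B ^ (-1/2)` and `ν B ^ (1/2)`. -/
theorem csl {α : Type} (B : Finset α) (ν : α → ℝ) (hB : ∀ b ∈ B, 1 ≤ ν b) (z w : α → ℂ) :
    ‖∑ b ∈ B, z b * w b‖ ^ 2 ≤ (∑ b ∈ B, ν b ^ (-(1 / 2) : ℝ)) *
      ∑ b ∈ B, ν b ^ ((1 / 2) : ℝ) * ‖z b‖ ^ 2 * ‖w b‖ ^ 2 := by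
  have h1 : ‖∑ b ∈ B, z b * w b‖ ≤ ∑ b ∈ B, ‖z b‖ * ‖w b‖ := by
    refine (norm_sum_le _ _).trans (le_of_eq ?_)
    exact Finset.sum_congr rfl (fun b _ => norm_mul _ _)
  have h2 : ‖∑ b ∈ B, z b * w b‖ ^ 2 ≤ (∑ b ∈ B, ‖z b‖ * ‖w b‖) ^ 2 :=
    pow_le_pow_left₀ (norm_nonneg _) h1 2
  refine h2.trans ?_
  refine Finset.sum_sq_le_sum_mul_sum_of_sq_le_mul B ?_ ?_ ?_
  · intro b hb
    have := hB b hb
    positivity
  · intro b hb
    have := hB b hb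
    positivity
  · intro b hb
    refine le_of_eq ?_
    have hb0 : (0 : ℝ) < ν b := by linarith [hB b hb]
    have e : ν b ^ (-(1 / 2) : ℝ) * ν b ^ ((1 / 2) : ℝ) = 1 := by
      rw [← Real.rpow_add hb0]
      norm_num
    calc (‖z b‖ * ‖w b‖) ^ 2 = 1 * (‖z b‖ ^ 2 * ‖w b‖ ^ 2) := by ring
      _ = ν b ^ (-(1 / 2) : ℝ) * ν b ^ ((1 / 2) : ℝ) * (‖z b‖ ^ 2 * ‖w b‖ ^ 2) := by rw [e]
      _ = _ := by ring

section

variable {k : Type} [Field k] [NumberField k]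

open Classical in
/-- the squarefree part of the partial sum -/
noncomputable def Wb {K : Type} [Field K] [NumberField K] [Algebra k K] (b : ℕ)
    (ψ : Ideal (𝓞 K) → ℂ) (x : ℝ) (B : Ideal (𝓞 k)) : ℂ :=
  ∑ I ∈ Sq b (x / nm B), (if I ⊔ B = ⊤ then (1 : ℂ) else 0) * lc k ψ I

open Classical in
/-- the bound for one partial sum -/
theorem one (hMUL : T_MULc) (hSQD : Pool.Agent.H23.CM4.T_SQD) (hSPR : T_SPRc)
    (hJDM : Pool.Agent.H23.CM4.T_JDM) {K : Type} [Field K]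
    [NumberField K] [Algebra k K] (b : ℕ) (hb : 0 < b) (ψ : Ideal (𝓞 K) → ℂ)
    (h1 : ψ ⊤ = 1) (h2 : ∀ J J', ψ (J * J') = ψ J * ψ J') (x a : ℝ)
    (ha : ∀ B : Ideal (𝓞 k), B ≠ ⊥ → nm B ≤ x → ‖lc k ψ B‖ ≤ a) :
    ‖Sc (cf ψ) x‖ ^ 2 ≤ (∑ B ∈ (Jd k x).filter (Full b), nm B ^ (-(1 / 2) : ℝ)) *
      ∑ B ∈ (Jd k x).filter (Full b), nm B ^ ((1 / 2) : ℝ) * a ^ 2 * ‖Wb b ψ x B‖ ^ 2 := by
  obtain ⟨hJ, hS, hn1, hnm, -⟩ := hJDM k
  have e : Sc (cf ψ) x = ∑ B ∈ (Jd k x).filter (Full b), lc k ψ B * Wb b ψ x B := by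
    rw [hSPR k K ψ x, hSQD k b (lc k ψ) hb (hMUL k K ψ h1 h2).2 x]
    refine Finset.sum_congr rfl ?_
    intro B _
    refine congrArg (fun t => lc k ψ B * t) ?_
    unfold Wb
    refine Finset.sum_congr rfl ?_
    intro m _
    by_cases hm : m ⊔ B = ⊤
    · rw [if_pos hm, if_pos hm, one_mul]
    · rw [if_neg hm, if_neg hm, zero_mul]
  rw [e]
  have hB : ∀ B ∈ (Jd k x).filter (Full b), 1 ≤ nm B := by
    intro B hB
    exact hn1 B ((hJ x B).mp (Finset.mem_filter.mp hB).1).1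
  refine (csl _ nm hB _ _).trans ?_
  refine mul_le_mul_of_nonneg_left ?_ ?_
  · refine Finset.sum_le_sum ?_
    intro B hBm
    have h1 := ((hJ x B).mp (Finset.mem_filter.mp hBm).1)
    have h3 := ha B h1.1 h1.2
    have h4 : ‖lc k ψ B‖ ^ 2 ≤ a ^ 2 := pow_le_pow_left₀ (norm_nonneg _) h3 2
    have h5 := hB B hBm
    refine mul_le_mul_of_nonneg_right ?_ (by positivity)
    exact mul_le_mul_of_nonneg_left h4 (by positivity)
  · refine Finset.sum_nonneg (fun B hBm => ?_)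
    have h5 := hB B hBm
    positivity

end

open Classical in
theorem pf_MOS (hTMF : Pool.Agent.H65.CMC.T_TMFm) (hMUL : T_MULc) (hSPR : T_SPRc) (hDVB : T_DVBc)
    (hFX : T_FXc) (oJDM : Pool.Agent.H23.CM4.T_JDM) (oSQD : Pool.Agent.H23.CM4.T_SQD)
    (oSFS : Pool.Agent.H23.CM4.T_SFS) : T_MOSc := by
  intro k _ _ _ ε hε
  obtain ⟨b, hb, hTMF'⟩ := hTMF k
  obtain ⟨κ, hκ0, hκ8, δ₀, hδ₀, C₀, j, hC₀, H⟩ := hTMF' ε hε
  obtain ⟨C₁, hC₁, hdv⟩ := hDVB k (ε / 8) (by linarith)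
  obtain ⟨C₃, hC₃, hsf⟩ := oSFS k b (ε / 4) hb (by linarith)
  obtain ⟨hJ, hS, hn1, hnm, -⟩ := oJDM k
  refine ⟨κ, hκ0, hκ8, min δ₀ 1, lt_min hδ₀ one_pos, min_le_right _ _,
    C₃ ^ 2 * C₁ ^ 2 * C₀, j, by positivity, ?_⟩
  intro s X x ι K _ _ _ Φ S f m F hs hX hx hxX hF
  have hms : 0 ≤ ms m := by
    unfold ms
    exact Finset.sum_nonneg (fun v _ => abs_nonneg _)
  have hT0 : 0 ≤ Tc m s := by
    unfold Tc
    positivity
  set B : Finset (Ideal (𝓞 k)) := (Jd k x).filter (Full b) with hBdef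
  have hBn : ∀ I ∈ B, 1 ≤ nm I ∧ nm I ≤ x := by
    intro I hI
    have h := (hJ x I).mp (Finset.mem_filter.mp hI).1
    exact ⟨hn1 I h.1, h.2⟩
  set A : ℝ := ∑ I ∈ B, nm I ^ (-(1 / 2) : ℝ) with hA
  have hA0 : 0 ≤ A := Finset.sum_nonneg (fun I hI => by
    have := (hBn I hI).1
    positivity)
  have hAle : A ≤ C₃ * x ^ (ε / 4) := hsf x hx
  set a : ℝ := C₁ * x ^ (ε / 8) with ha
  have hFX' := (hFX k ι K Φ S f (fun _ => m) F (X / 4) X hF).1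
  have hlm : ∀ p ∈ S, ∀ I : Ideal (𝓞 k), I ≠ ⊥ → nm I ≤ x →
      ‖lc k p.2 I‖ ≤ a := by
    intro p hp I hI hIx
    obtain ⟨hc, -, -, -, -, -, hle⟩ := hFX' p hp
    refine (hdv (K p.1) hc.rk hc.cx p.2 hle I hI).trans ?_
    refine mul_le_mul_of_nonneg_left ?_ hC₁.le
    have := hn1 I hI
    exact Real.rpow_le_rpow (by positivity) hIx (by linarith)
  -- the bound for each ideal
  have hb1 : ∀ I ∈ B, ∑ p ∈ S, ‖Wb b p.2 x I‖ ^ 2 * ‖F p s‖ ^ 2 ≤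
      C₀ * Tc m s ^ j * X ^ (3 / 2 + ε) * (x / nm I) := by
    intro I hI
    obtain ⟨hI1, hIx⟩ := hBn I hI
    have hI0 : 0 < nm I := by linarith
    have hN1 : 1 ≤ x / nm I := by rwa [le_div_iff₀ hI0, one_mul]
    have hNx : x / nm I ≤ x := div_le_self (by linarith) hI1
    have hNX : x / nm I ≤ X ^ ((1 + δ₀) / 2) := by
      refine (hNx.trans hxX).trans ?_
      refine Real.rpow_le_rpow_of_exponent_le hX ?_
      have := min_le_left δ₀ 1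
      linarith
    exact H s X (x / nm I) (fun m => if m ⊔ I = ⊤ then (1 : ℂ) else 0) ι K Φ S f m F hs hX hN1 hNX
      (by
        intro m
        by_cases hm : m ⊔ I = ⊤
        · rw [if_pos hm]; simp
        · rw [if_neg hm]; simp) hF
  have hmain : ∑ p ∈ S, ‖Sc (cf p.2) x‖ ^ 2 * ‖F p s‖ ^ 2 ≤
      A * ∑ I ∈ B, nm I ^ ((1 / 2) : ℝ) * a ^ 2 *
        ∑ p ∈ S, ‖Wb b p.2 x I‖ ^ 2 * ‖F p s‖ ^ 2 := by
    have e1 : ∑ p ∈ S, ‖Sc (cf p.2) x‖ ^ 2 * ‖F p s‖ ^ 2 ≤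
        ∑ p ∈ S, (A * ∑ I ∈ B, nm I ^ ((1 / 2) : ℝ) * a ^ 2 *
          ‖Wb b p.2 x I‖ ^ 2) * ‖F p s‖ ^ 2 := by
      refine Finset.sum_le_sum ?_
      intro p hp
      refine mul_le_mul_of_nonneg_right ?_ (by positivity)
      have hc := (hFX' p hp).1
      exact one hMUL oSQD hSPR oJDM b hb p.2 hc.hk.one hc.hk.mul x a (hlm p hp)
    refine e1.trans (le_of_eq ?_)
    rw [Finset.mul_sum]
    have e2 : ∀ p ∈ S, (A * ∑ I ∈ B, nm I ^ ((1 / 2) : ℝ) * a ^ 2 *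
          ‖Wb b p.2 x I‖ ^ 2) * ‖F p s‖ ^ 2 =
        ∑ I ∈ B, A * (nm I ^ ((1 / 2) : ℝ) * a ^ 2 *
          (‖Wb b p.2 x I‖ ^ 2 * ‖F p s‖ ^ 2)) := by
      intro p _
      rw [Finset.mul_sum, Finset.sum_mul]
      refine Finset.sum_congr rfl ?_
      intro I _
      ring
    rw [Finset.sum_congr rfl e2, Finset.sum_comm]
    refine Finset.sum_congr rfl ?_
    intro I _
    rw [Finset.mul_sum, Finset.mul_sum]
  refine hmain.trans ?_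
  have hTj : 0 ≤ Tc m s ^ j := pow_nonneg hT0 j
  have h5 : ∑ I ∈ B, nm I ^ ((1 / 2) : ℝ) * a ^ 2 *
        ∑ p ∈ S, ‖Wb b p.2 x I‖ ^ 2 * ‖F p s‖ ^ 2 ≤
      (a ^ 2 * (C₀ * Tc m s ^ j * X ^ (3 / 2 + ε)) * x) * A := by
    rw [hA, Finset.mul_sum]
    refine Finset.sum_le_sum ?_
    intro I hI
    have hI0 : (0 : ℝ) < nm I := by linarith [(hBn I hI).1]
    refine (mul_le_mul_of_nonneg_left (hb1 I hI) (by positivity)).trans (le_of_eq ?_)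
    have e : nm I ^ (-(1 / 2) : ℝ) = nm I ^ ((1 / 2) : ℝ) / nm I := by
      rw [eq_div_iff hI0.ne']
      nth_rewrite 2 [← Real.rpow_one (nm I)]
      rw [← Real.rpow_add hI0]
      norm_num
    rw [e]
    ring
  refine (mul_le_mul_of_nonneg_left h5 hA0).trans ?_
  have hx0 : (0 : ℝ) < x := by linarith
  have e3 : (x ^ (ε / 8)) ^ 2 = x ^ (ε / 4) := by
    rw [← Real.rpow_natCast, ← Real.rpow_mul hx0.le]
    congr 1
    push_cast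
    ring
  have e4 : (x ^ (ε / 4)) ^ 2 = x ^ (ε / 2) := by
    rw [← Real.rpow_natCast, ← Real.rpow_mul hx0.le]
    congr 1
    push_cast
    ring
  have e5 : x ^ (ε / 4) * x ^ (ε / 2) * x ≤ x ^ (1 + ε) := by
    nth_rewrite 3 [← Real.rpow_one x]
    rw [← Real.rpow_add hx0, ← Real.rpow_add hx0]
    exact Real.rpow_le_rpow_of_exponent_le hx (by linarith)
  have hA2 : A * A ≤ C₃ ^ 2 * x ^ (ε / 2) := by
    calc A * A ≤ (C₃ * x ^ (ε / 4)) * (C₃ * x ^ (ε / 4)) :=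
          mul_le_mul hAle hAle hA0 (by positivity)
      _ = C₃ ^ 2 * (x ^ (ε / 4)) ^ 2 := by ring
      _ = _ := by rw [e4]
  have hG : 0 ≤ C₀ * Tc m s ^ j * X ^ (3 / 2 + ε) := by positivity
  calc A * (a ^ 2 * (C₀ * Tc m s ^ j * X ^ (3 / 2 + ε)) * x * A)
      = (A * A) * (C₁ ^ 2 * (x ^ (ε / 8)) ^ 2 * (C₀ * Tc m s ^ j * X ^ (3 / 2 + ε)) * x) := by
        rw [ha]; ring
    _ ≤ (C₃ ^ 2 * x ^ (ε / 2)) *
        (C₁ ^ 2 * (x ^ (ε / 8)) ^ 2 * (C₀ * Tc m s ^ j * X ^ (3 / 2 + ε)) * x) :=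
        mul_le_mul_of_nonneg_right hA2 (by positivity)
    _ = (C₃ ^ 2 * C₁ ^ 2 * (C₀ * Tc m s ^ j * X ^ (3 / 2 + ε))) *
        (x ^ (ε / 4) * x ^ (ε / 2) * x) := by
        rw [e3]; ring
    _ ≤ (C₃ ^ 2 * C₁ ^ 2 * (C₀ * Tc m s ^ j * X ^ (3 / 2 + ε))) *
        x ^ (1 + ε) := mul_le_mul_of_nonneg_left e5 (by positivity)
    _ = _ := by ring

end Pool.Agent.H35.CMC
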