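import Pool.Agent.H95.CMC.Targets
import Pool.Agent.H95.CM4.CLSU

/-!
# Row F_EJB: every sublattice of a line with divisible norms is given by an ideal
-/

set_option autoImplicit false
set_option linter.unusedSectionVars false

open MeasureTheory Set Filter NumberField
open scoped Real nonZeroDivisors

namespace Pool.Agent.H35.CMC

open Pool.Agent.H65.CM4 Pool.Agent.H65.CMC Pool.Agent.H95.CMC
open Pool.Agent.H95.CM (lin lin_add lin_smul Nr mem_Nr un T_MEM T_IXL)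
open Pool.Agent.H95.CM4 (cancel_b lin_zero lin_neg lin_sub lin_inj det_mul intNorm_coe)

theorem pf_EJB (hLNB : T_LNB) (hLNI : T_LNI) (hLSX : T_LSX) (hMEM : T_MEM) (hIXL : T_IXL) :
    T_EJB := by
  intro k K _ _ _ _ _ _ _ _ f I b Λ α β μ M Q hf hI hΛ hb hO n hn hnb hnf Λ' hΛ'
  have hinj := hO.inj
  have hbM := hO.bM
  obtain ⟨hLn, -, hΛI⟩ := hLNB k K f I hf hI
  obtain ⟨l, hl, hlf, hΛl⟩ := (hLn Λ).mp hΛ
  obtain ⟨-, hns⟩ := hLNI k K f I l hf hI hl hlf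
  have hns' : ns Λ = Ideal.relNorm (𝓞 k) I := by rw [hΛl]; exact hns
  obtain ⟨hΛ'Λ, ⟨l₀, hl₀, hgen, hcond⟩, hN⟩ := id hΛ'
  obtain ⟨-, hex, -⟩ := hLSX k K b Λ α β μ M Q hb hO n hn hnb
  obtain ⟨L, hL, hDv, hLΛ'⟩ := hex Λ' (by rw [hns']; exact hΛ')
  -- the multiple of f I are in Λ
  have hFI : ∀ x ∈ f.map (algebraMap (𝓞 k) (𝓞 K)) * I, x ∈ Λ := by
    intro x hx
    rw [hΛl]
    refine ⟨0, ?_⟩
    simpa using hx
  -- the number n0
  obtain ⟨a₀, ha₀, n0, hn0, hsum⟩ : ∃ a ∈ n, ∃ c ∈ f, a + c = (1 : 𝓞 k) := by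
    have h1 : (1 : 𝓞 k) ∈ n ⊔ f := by rw [hnf]; trivial
    exact Submodule.mem_sup.mp h1
  have hn0F : ∀ x ∈ I, algebraMap (𝓞 k) (𝓞 K) n0 * x ∈ f.map (algebraMap (𝓞 k) (𝓞 K)) * I := by
    intro x hx
    exact Ideal.mul_mem_mul (Ideal.mem_map_of_mem _ hn0) hx
  have haΛ : ∀ a ∈ n, ∀ x ∈ Λ, a • x ∈ Λ' := by
    intro a ha x hx
    obtain ⟨c, hc⟩ := hgen x hx
    have e : a • x = a • (x - c • l₀) + (a * c) • l₀ := by
      rw [smul_sub, smul_smul]; ring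
    rw [e]
    exact Λ'.add_mem (Λ'.smul_mem _ hc) ((hcond _).mpr (n.mul_mem_right _ ha))
  have hsplit : ∀ x : 𝓞 K, x = a₀ • x + algebraMap (𝓞 k) (𝓞 K) n0 * x := by
    intro x
    rw [← Algebra.smul_def, ← add_smul, hsum, one_smul]
  have hback : ∀ x ∈ Λ, algebraMap (𝓞 k) (𝓞 K) n0 * x ∈ Λ' → x ∈ Λ' := by
    intro x hx h
    rw [hsplit x]
    exact Λ'.add_mem (haΛ a₀ ha₀ x hx) h
  obtain ⟨u₀, hu₀, hLw⟩ := ((hMEM k).1 n L hn).mp hL
  -- membership in M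
  have hMI : ∀ u : V2 k, u ∈ M ↔ ∃ x ∈ Λ, (x : K) = lin α β u := by
    intro u; rw [hO.lat]; exact Iff.rfl
  have hLm : ∀ u : V2 k, u ∈ L ↔ det u₀ u ∈ n := by
    intro u; rw [hLw]; exact Iff.rfl
  -- the action
  have hact : ∀ (ω : 𝓞 K) (u : V2 k), u ∈ M → ∃ u' ∈ M,
      lin α β u' = ((algebraMap (𝓞 k) (𝓞 K) n0 * ω : 𝓞 K) : K) * lin α β u := by
    intro ω u hu
    obtain ⟨x, hx, ex⟩ := (hMI u).mp hu
    have hx' : algebraMap (𝓞 k) (𝓞 K) n0 * ω * x ∈ Λ := by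
      refine hFI _ ?_
      rw [mul_assoc]
      exact hn0F _ (I.mul_mem_left ω (hΛI Λ hΛ x hx))
    obtain ⟨u', hu'⟩ := hO.mem _ hx'
    refine ⟨u', (hMI u').mpr ⟨_, hx', hu'.symm⟩, ?_⟩
    rw [hu', ← ex]
    push_cast
    rfl
  -- the multiplier
  have hmul : ∀ ω : 𝓞 K, ∃ l : 𝓞 k, ∀ u ∈ M, ∀ u',
      lin α β u' = ((algebraMap (𝓞 k) (𝓞 K) n0 * ω : 𝓞 K) : K) * lin α β u →
      (b : 𝓞 k) * det u u' = val Q u * l := by
    intro ω
    obtain ⟨l, hl⟩ := det_mul hinj ((algebraMap (𝓞 k) (𝓞 K) n0 * ω : 𝓞 K) : K)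
    have key : ∀ u u' : V2 k,
        lin α β u' = ((algebraMap (𝓞 k) (𝓞 K) n0 * ω : 𝓞 K) : K) * lin α β u →
        ((det u u' : 𝓞 k) : k) = ((val Q u : 𝓞 k) : k) * (μ * l) := by
      intro u u' h
      rw [hl u u' h, hO.nrm]; ring
    have hspan : ∀ a ∈ Ideal.span {a : 𝓞 k | ∃ u ∈ M, val Q u = a},
        ∃ m : 𝓞 k, algebraMap (𝓞 k) k m = algebraMap (𝓞 k) k a * (μ * l) := by
      intro a ha
      refine Submodule.span_induction ?_ ?_ ?_ ?_ ha
      · rintro x ⟨u, hu, rfl⟩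
        obtain ⟨u', _, h'⟩ := hact ω u hu
        exact ⟨det u u', key u u' h'⟩
      · exact ⟨0, by simp⟩
      · rintro x y _ _ ⟨m, hm⟩ ⟨m', hm'⟩
        exact ⟨m + m', by rw [map_add, map_add, hm, hm']; ring⟩
      · rintro c x _ ⟨m, hm⟩
        exact ⟨c * m, by rw [map_mul, hm, smul_eq_mul, map_mul]; ring⟩
    obtain ⟨m, hm⟩ := hspan _ hO.cop
    refine ⟨m, ?_⟩
    intro u _ u' h
    apply RingOfIntegers.ext
    have h1 : algebraMap (𝓞 k) k (det u u') = algebraMap (𝓞 k) k (val Q u) * (μ * l) := key u u' h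
    change algebraMap (𝓞 k) k ((b : 𝓞 k) * det u u') = algebraMap (𝓞 k) k (val Q u * m)
    rw [map_mul, map_mul, hm, h1]
    ring
  have hdet : ∀ (ω : 𝓞 K), ∀ u ∈ M, u ∈ L → ∀ u',
      lin α β u' = ((algebraMap (𝓞 k) (𝓞 K) n0 * ω : 𝓞 K) : K) * lin α β u →
      det u u' ∈ n := by
    intro ω u hu huL u' h
    obtain ⟨l, hl⟩ := hmul ω
    refine cancel_b hnb ?_
    rw [hl u hu u' h]
    exact n.mul_mem_right _ (hDv u huL)
  -- the lattice is stable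
  have hstab : ∀ (ω : 𝓞 K), ∀ u ∈ M, u ∈ L → ∀ u' ∈ M,
      lin α β u' = ((algebraMap (𝓞 k) (𝓞 K) n0 * ω : 𝓞 K) : K) * lin α β u →
      u' ∈ L := by
    intro ω u hu huL u' hu' h
    -- the vector u₁
    have h1M : (b : 𝓞 k) • u₀ ∈ M := hbM u₀
    have h1L : (b : 𝓞 k) • u₀ ∈ L := by
      rw [hLm]
      have : det u₀ ((b : 𝓞 k) • u₀) = 0 := by simp [det]; ring
      rw [this]; exact n.zero_mem
    obtain ⟨w₁, hw₁M, hw₁⟩ := hact ω _ h1M
    have hw₁L : det u₀ w₁ ∈ n := by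
      have h2 := hdet ω _ h1M h1L w₁ hw₁
      have : det ((b : 𝓞 k) • u₀) w₁ = (b : 𝓞 k) * det u₀ w₁ := by simp [det]; ring
      rw [this] at h2
      exact cancel_b hnb h2
    obtain ⟨f₁, _, hf₁⟩ := hact ω _ (hbM (1, 0))
    obtain ⟨f₂, _, hf₂⟩ := hact ω _ (hbM (0, 1))
    -- the multiple of u₀ near u
    obtain ⟨c, hc1, hc2⟩ : ∃ c : 𝓞 k, u.1 - c * u₀.1 ∈ n ∧ u.2 - c * u₀.2 ∈ n := by
      have h1 : (1 : 𝓞 k) ∈ Ideal.span {u₀.1, u₀.2} ⊔ n := by
        have : Ideal.span {u₀.1, u₀.2} ⊔ n = ⊤ := hu₀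
        rw [this]; trivial
      obtain ⟨y, hy, z, hz, e⟩ := Submodule.mem_sup.mp h1
      obtain ⟨p, q, hpq⟩ := Ideal.mem_span_pair.mp hy
      have hd : u₀.1 * u.2 - u₀.2 * u.1 ∈ n := (hLm u).mp huL
      refine ⟨p * u.1 + q * u.2, ?_, ?_⟩
      · have : u.1 - (p * u.1 + q * u.2) * u₀.1 = z * u.1 + (-q) * (u₀.1 * u.2 - u₀.2 * u.1) := by
          linear_combination (-u.1) * e + (-u.1) * hpq
        rw [this]
        exact n.add_mem (n.mul_mem_right _ hz) (n.mul_mem_left _ hd)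
      · have : u.2 - (p * u.1 + q * u.2) * u₀.2 = z * u.2 + p * (u₀.1 * u.2 - u₀.2 * u.1) := by
          linear_combination (-u.2) * e + (-u.2) * hpq
        rw [this]
        exact n.add_mem (n.mul_mem_right _ hz) (n.mul_mem_left _ hd)
    have hu : u = c • u₀ + ((u.1 - c * u₀.1) • (1, 0) + (u.2 - c * u₀.2) • (0, 1)) := by
      ext <;> simp
    have hbu : (b : 𝓞 k) • u = c • ((b : 𝓞 k) • u₀) + ((u.1 - c * u₀.1) • ((b : 𝓞 k) • (1, 0)) +
        (u.2 - c * u₀.2) • ((b : 𝓞 k) • (0, 1))) := by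
      conv_lhs => rw [hu]
      simp only [smul_add, smul_comm (b : 𝓞 k)]
    have heq : (b : 𝓞 k) • u' = c • w₁ + ((u.1 - c * u₀.1) • f₁ + (u.2 - c * u₀.2) • f₂) := by
      apply lin_inj hinj
      have e1 : lin α β ((b : 𝓞 k) • u') =
          ((algebraMap (𝓞 k) (𝓞 K) n0 * ω : 𝓞 K) : K) * lin α β ((b : 𝓞 k) • u) := by
        rw [lin_smul, lin_smul, h]; ring
      rw [e1, hbu]
      simp only [lin_add, lin_smul, hw₁, hf₁, hf₂]
      ring
    rw [hLm]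
    refine cancel_b hnb ?_
    have e2 : (b : 𝓞 k) * det u₀ u' = det u₀ ((b : 𝓞 k) • u') := by simp [det]; ring
    have e3 : det u₀ (c • w₁ + ((u.1 - c * u₀.1) • f₁ + (u.2 - c * u₀.2) • f₂)) =
        c * det u₀ w₁ + ((u.1 - c * u₀.1) * det u₀ f₁ + (u.2 - c * u₀.2) * det u₀ f₂) := by
      simp [det]; ring
    rw [e2, heq, e3]
    exact n.add_mem (n.mul_mem_left _ hw₁L) (n.add_mem (n.mul_mem_right _ hc1)
      (n.mul_mem_right _ hc2))
  have hmemΛ' : ∀ x : 𝓞 K, x ∈ Λ' ↔ ∃ u ∈ M ⊓ L, (x : K) = lin α β u := by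
    intro x; rw [← hLΛ']; exact Iff.rfl
  -- the sublattice is stable
  have hst : ∀ (ω : 𝓞 K), ∀ x ∈ Λ', algebraMap (𝓞 k) (𝓞 K) n0 * ω * x ∈ Λ' := by
    intro ω x hx
    obtain ⟨u, hu, ex⟩ := (hmemΛ' x).mp hx
    obtain ⟨u', hu', h'⟩ := hact ω u hu.1
    refine (hmemΛ' _).mpr ⟨u', ⟨hu', hstab ω u hu.1 hu.2 u' hu' h'⟩, ?_⟩
    rw [h', ← ex]
    push_cast
    rfl
  -- the ideal
  let I' : Ideal (𝓞 K) :=
    { carrier := {x | x ∈ I ∧ algebraMap (𝓞 k) (𝓞 K) n0 * x ∈ Λ'}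
      zero_mem' := ⟨I.zero_mem, by rw [mul_zero]; exact Λ'.zero_mem⟩
      add_mem' := by
        rintro x y ⟨hx, hx'⟩ ⟨hy, hy'⟩
        exact ⟨I.add_mem hx hy, by rw [mul_add]; exact Λ'.add_mem hx' hy'⟩
      smul_mem' := by
        rintro ω x ⟨hx, hx'⟩
        refine ⟨I.mul_mem_left ω hx, ?_⟩
        refine hback _ (hFI _ (hn0F _ (I.mul_mem_left ω hx))) ?_
        have h1 := hst ω _ hx'
        have e : algebraMap (𝓞 k) (𝓞 K) n0 * (algebraMap (𝓞 k) (𝓞 K) n0 * (ω • x)) =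
            algebraMap (𝓞 k) (𝓞 K) n0 * ω * (algebraMap (𝓞 k) (𝓞 K) n0 * x) := by
          rw [smul_eq_mul]; ring
        rw [e]; exact h1 }
  have hI'm : ∀ x : 𝓞 K, x ∈ I' ↔ x ∈ I ∧ algebraMap (𝓞 k) (𝓞 K) n0 * x ∈ Λ' := fun x => Iff.rfl
  have hI'I : I' ≤ I := fun x hx => hx.1
  obtain ⟨P, hP⟩ := Ideal.dvd_iff_le.mpr hI'I
  have hPI : P * I = I' := by rw [hP, mul_comm]
  have hΛe : Λ' = Λ ⊓ (P * I).restrictScalars (𝓞 k) := by
    rw [hPI]
    ext x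
    constructor
    · intro hx
      refine ⟨hΛ'Λ hx, hΛI Λ hΛ x (hΛ'Λ hx), ?_⟩
      rw [← Algebra.smul_def]
      exact Λ'.smul_mem _ hx
    · rintro ⟨hx, -, hx'⟩
      exact hback x hx hx'
  have hI0 : I ≠ ⊥ := hI.1
  have haI : ∀ a ∈ n, ∀ x ∈ I, a • x ∈ I' := by
    intro a ha x hx
    refine ⟨?_, ?_⟩
    · rw [Algebra.smul_def]; exact I.mul_mem_left _ hx
    · have e : algebraMap (𝓞 k) (𝓞 K) n0 * (a • x) = a • (algebraMap (𝓞 k) (𝓞 K) n0 * x) := by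
        rw [Algebra.smul_def, Algebra.smul_def]; ring
      rw [e]
      exact haΛ a ha _ (hFI _ (hn0F _ hx))
  have hP0 : P ≠ ⊥ := by
    rintro rfl
    obtain ⟨a, ha, ha0⟩ := Submodule.exists_mem_ne_zero_of_ne_bot hn
    obtain ⟨x, hx, hx0⟩ := Submodule.exists_mem_ne_zero_of_ne_bot hI0
    have h1 := haI a ha x hx
    rw [← hPI, Ideal.bot_mul] at h1
    have h2 : a • x = 0 := by simpa using h1
    rw [Algebra.smul_def] at h2
    rcases mul_eq_zero.mp h2 with h3 | h3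
    · exact ha0 ((map_eq_zero_iff _ (FaithfulSMul.algebraMap_injective (𝓞 k) (𝓞 K))).mp h3)
    · exact hx0 h3
  -- the norm of P
  let φ : V2 k →+ K :=
    { toFun := fun u => lin α β u
      map_zero' := lin_zero α β
      map_add' := fun u v => lin_add α β u v }
  let j : 𝓞 K →+ K := (algebraMap (𝓞 K) K).toAddMonoidHom
  have hφ : Function.Injective φ := fun u v e => lin_inj hinj e
  have hj : Function.Injective j := RingOfIntegers.coe_injective
  have m1 : M.toAddSubgroup.map φ = (Submodule.toAddSubgroup Λ).map j := by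
    ext y
    constructor
    · rintro ⟨u, hu, rfl⟩
      obtain ⟨x, hx, ex⟩ := (hMI u).mp hu
      exact ⟨x, hx, ex⟩
    · rintro ⟨x, hx, rfl⟩
      obtain ⟨u, hu⟩ := hO.mem x hx
      exact ⟨u, (hMI u).mpr ⟨x, hx, hu.symm⟩, hu⟩
  have m2 : (M ⊓ L).toAddSubgroup.map φ = (Submodule.toAddSubgroup Λ').map j := by
    ext y
    constructor
    · rintro ⟨u, hu, rfl⟩
      obtain ⟨x, hx, ex⟩ := (hMI u).mp hu.1
      exact ⟨x, (hmemΛ' x).mpr ⟨u, hu, ex⟩, ex⟩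
    · rintro ⟨x, hx, rfl⟩
      obtain ⟨u, hu, ex⟩ := (hmemΛ' x).mp hx
      exact ⟨u, hu, ex.symm⟩
  have r : (M ⊓ L).toAddSubgroup.relIndex M.toAddSubgroup =
      (Submodule.toAddSubgroup Λ').relIndex (Submodule.toAddSubgroup Λ) := by
    rw [← AddSubgroup.relIndex_map_map_of_injective _ _ hφ, m1, m2,
      AddSubgroup.relIndex_map_map_of_injective _ _ hj]
  have r' : (Submodule.toAddSubgroup Λ').relIndex (Submodule.toAddSubgroup Λ) =
      (Submodule.toAddSubgroup I').relIndex (Submodule.toAddSubgroup I) := by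
    have h1 : Submodule.toAddSubgroup Λ' = Submodule.toAddSubgroup I' ⊓ Submodule.toAddSubgroup Λ := by
      have h := hΛe
      rw [hPI] at h
      ext x
      constructor
      · intro hx
        have hx' : x ∈ Λ' := hx
        rw [h] at hx'
        exact ⟨hx'.2, hx'.1⟩
      · rintro ⟨hx, hx'⟩
        have : x ∈ Λ' := by
          rw [h]; exact ⟨hx', hx⟩
        exact this
    have h2 : Submodule.toAddSubgroup I = Submodule.toAddSubgroup Λ ⊔ Submodule.toAddSubgroup I' := by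
      apply le_antisymm
      · intro x hx
        have hx1 : x ∈ I := hx
        rw [hsplit x, add_comm]
        exact AddSubgroup.add_mem_sup (hFI _ (hn0F _ hx1)) (haI a₀ ha₀ x hx1)
      · refine sup_le ?_ ?_
        · intro x hx
          exact hΛI Λ hΛ x hx
        · intro x hx
          exact hI'I hx
    rw [h1, AddSubgroup.inf_relIndex_right, h2, AddSubgroup.relIndex_sup_right]
  have r1 := AddSubgroup.relIndex_mul_index
    (show (M ⊓ L).toAddSubgroup ≤ M.toAddSubgroup from fun u hu => hu.1)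
  have r2 := AddSubgroup.relIndex_mul_index
    (show Submodule.toAddSubgroup I' ≤ Submodule.toAddSubgroup I from fun u hu => hI'I hu)
  obtain ⟨i1, _, i2, _⟩ := hIXL k b M n hb hbM hn hnb
  have i3 : ix (M ⊓ L) = ix M * Ideal.absNorm n := i2 L hL
  have hI0' : Ideal.absNorm I ≠ 0 := by rwa [Ne, Ideal.absNorm_eq_zero_iff]
  have r3 : (M ⊓ L).toAddSubgroup.relIndex M.toAddSubgroup = Ideal.absNorm n := by
    have : (M ⊓ L).toAddSubgroup.relIndex M.toAddSubgroup * ix M = Ideal.absNorm n * ix M := by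
      rw [mul_comm (Ideal.absNorm n), ← i3]; exact r1
    exact Nat.eq_of_mul_eq_mul_right (Nat.pos_of_ne_zero i1) this
  have hPn : Ideal.absNorm P = Ideal.absNorm n := by
    have h1 : Ideal.absNorm I' = Ideal.absNorm P * Ideal.absNorm I := by rw [← hPI, map_mul]
    have h2 : (Submodule.toAddSubgroup I').relIndex (Submodule.toAddSubgroup I) *
        Ideal.absNorm I = Ideal.absNorm I' := r2
    rw [← r', ← r, r3, h1] at h2
    exact (Nat.eq_of_mul_eq_mul_right (Nat.pos_of_ne_zero hI0') h2).symm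
  -- the relative norm of P
  have hrI0 : Ideal.relNorm (𝓞 k) I ≠ ⊥ := by
    rwa [Ne, Ideal.relNorm_eq_bot_iff]
  have hle : Ideal.relNorm (𝓞 k) P ≤ n := by
    have h1 : Ideal.relNorm (𝓞 k) I' ≤ n * Ideal.relNorm (𝓞 k) I := by
      intro z hz
      have hz' : z ∈ Ideal.map (Algebra.intNorm (𝓞 k) (𝓞 K)) I' := hz
      refine Submodule.span_induction ?_ ?_ ?_ ?_ hz'
      · rintro _ ⟨x, ⟨hx, hx'⟩, rfl⟩
        have h2 := hN _ hx'
        have h3 : Algebra.intNorm (𝓞 k) (𝓞 K) x ∈ Ideal.relNorm (𝓞 k) I :=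
          Ideal.intNorm_mem_spanNorm (R := 𝓞 k) hx
        have h4 : Algebra.intNorm (𝓞 k) (𝓞 K) (algebraMap (𝓞 k) (𝓞 K) n0 * x) =
            n0 ^ 2 * Algebra.intNorm (𝓞 k) (𝓞 K) x := by
          apply RingOfIntegers.ext
          have h5 := intNorm_coe (k := k) (algebraMap (𝓞 k) (𝓞 K) n0 * x)
          have h6 := intNorm_coe (k := k) x
          have h7 : ((algebraMap (𝓞 k) (𝓞 K) n0 * x : 𝓞 K) : K) =
              algebraMap k K (n0 : k) * (x : K) := by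
            push_cast
            rfl
          rw [h7, map_mul (Algebra.norm k), Algebra.norm_algebraMap,
            Algebra.IsQuadraticExtension.finrank_eq_two k K] at h5
          have h8 : ((n0 ^ 2 * Algebra.intNorm (𝓞 k) (𝓞 K) x : 𝓞 k) : k) =
              (n0 : k) ^ 2 * ((Algebra.intNorm (𝓞 k) (𝓞 K) x : 𝓞 k) : k) := by
            push_cast
            rfl
          rw [h8, h6]
          exact h5
        rw [h4] at h2
        have h5 : Algebra.intNorm (𝓞 k) (𝓞 K) x = n0 ^ 2 * Algebra.intNorm (𝓞 k) (𝓞 K) x +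
            (a₀ * (1 + n0)) * Algebra.intNorm (𝓞 k) (𝓞 K) x := by
          have e : a₀ = 1 - n0 := by rw [← hsum]; ring
          rw [e]; ring
        rw [h5]
        exact Ideal.add_mem _ h2 (Ideal.mul_mem_mul (n.mul_mem_right _ ha₀) h3)
      · exact Ideal.zero_mem _
      · rintro x z _ _ hx hz
        exact Ideal.add_mem _ hx hz
      · rintro c x _ hx
        exact Ideal.mul_mem_left _ _ hx
    rw [← hPI, map_mul] at h1
    rw [← Ideal.dvd_iff_le] at h1 ⊢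
    exact (mul_dvd_mul_iff_right hrI0).mp h1
  refine ⟨P, hP0, ?_, hΛe⟩
  obtain ⟨J, hJ⟩ := Ideal.dvd_iff_le.mpr hle
  have hn0' : Ideal.absNorm n ≠ 0 := by rwa [Ne, Ideal.absNorm_eq_zero_iff]
  have h1 : Ideal.absNorm (Ideal.relNorm (𝓞 k) P) = Ideal.absNorm n := by
    rw [Ideal.absNorm_relNorm, hPn]
  rw [hJ, map_mul] at h1
  have h2 : Ideal.absNorm J = 1 := by
    have : Ideal.absNorm n * Ideal.absNorm J = Ideal.absNorm n * 1 := by rw [h1, mul_one]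
    exact Nat.eq_of_mul_eq_mul_left (Nat.pos_of_ne_zero hn0') this
  rw [Ideal.absNorm_eq_one_iff] at h2
  rw [hJ, h2, Ideal.mul_top]

end Pool.Agent.H35.CMC
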