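import Pool.Agent.H95.CMC.Targets

/-!
# Row F_TWL: sums over the ideals of a class are sums over the elements of an ideal
-/

set_option autoImplicit false
set_option linter.unusedSectionVars false

open MeasureTheory Set Filter NumberField
open scoped Real nonZeroDivisors

namespace Pool.Agent.H35.CMC

open Pool.Agent.H65.CM4 Pool.Agent.H65.CMC Pool.Agent.H95.CMC
open Pool.Agent.H95.CM (un T_UNI)

open Classical in
/-- sums over a set and sums over its preimage under a map all of whose fibres have `w` elements -/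
theorem hasSum_fib2 {κ ι : Type*} (A : Set κ) (B : Set ι) (j : κ → ι) (w : ℕ) (hw : 0 < w)
    (hj : ∀ v ∈ A, j v ∈ B) (hfib : ∀ J ∈ B, {v | v ∈ A ∧ j v = J}.ncard = w)
    (g : κ → ℂ) (f : ι → ℂ) (hgf : ∀ v ∈ A, g v = f (j v)) (a : ℂ)
    (h : HasSum (fun J => if J ∈ B then f J else 0) a) :
    HasSum (fun v => if v ∈ A then g v else 0) (w * a) := by
  have hU : HasSum (fun J : B => f J) a := by
    have h4 := (hasSum_subtype_iff_indicator (f := f) (s := B) (a := a)).mpr (by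
      refine h.congr_fun ?_
      intro v
      by_cases hv : v ∈ B
      · simp [hv]
      · simp [hv])
    exact h4
  set β : A → B := fun v => ⟨j v, hj v v.2⟩ with hβ
  -- the fibres
  have hfibE : ∀ J : B, ∃ _ : Fintype {v : A // β v = J},
      Fintype.card {v : A // β v = J} = w := by
    intro J
    have hc := hfib J.1 J.2
    have hfin : {v | v ∈ A ∧ j v = J.1}.Finite := Set.finite_of_ncard_pos (by rw [hc]; exact hw)
    let e : {v : A // β v = J} ≃ {v | v ∈ A ∧ j v = J.1} :=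
      { toFun := fun v => ⟨v.1.1, v.1.2, congrArg Subtype.val v.2⟩
        invFun := fun v => ⟨⟨v.1, v.2.1⟩, Subtype.ext v.2.2⟩
        left_inv := fun v => rfl
        right_inv := fun v => rfl }
    have hfin' : Finite {v : A // β v = J} := by
      have := hfin.to_subtype
      exact Finite.of_equiv _ e.symm
    have hft : Fintype {v : A // β v = J} := Fintype.ofFinite _
    refine ⟨hft, ?_⟩
    rw [← Nat.card_eq_fintype_card, Nat.card_congr e, Nat.card_coe_set_eq, hc]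
  have hval : ∀ (J : B) (v : {v : A // β v = J}), g v.1.1 = f J := by
    intro J v
    rw [hgf v.1.1 v.1.2]
    exact congrArg f (congrArg Subtype.val v.2)
  have hF : ∀ J : B, HasSum (fun v : {v : A // β v = J} => g v.1.1) (w * f J) := by
    intro J
    obtain ⟨hft, hcard⟩ := hfibE J
    have h1 : (fun v : {v : A // β v = J} => g v.1.1) = fun _ => f J := funext (hval J)
    rw [h1]
    have h2 := hasSum_fintype (fun _ : {v : A // β v = J} => f J)
    rw [Finset.sum_const, Finset.card_univ, nsmul_eq_mul, hcard] at h2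
    exact h2
  have hFn : ∀ J : B, HasSum (fun v : {v : A // β v = J} => ‖g v.1.1‖) (w * ‖f J‖) := by
    intro J
    obtain ⟨hft, hcard⟩ := hfibE J
    have h1 : (fun v : {v : A // β v = J} => ‖g v.1.1‖) = fun _ => ‖f J‖ :=
      funext (fun v => by rw [hval J v])
    rw [h1]
    have h2 := hasSum_fintype (fun _ : {v : A // β v = J} => ‖f J‖)
    rw [Finset.sum_const, Finset.card_univ, nsmul_eq_mul, hcard] at h2
    exact h2
  have hsn : Summable (fun p : Σ J : B, {v : A // β v = J} => ‖g p.2.1.1‖) := by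
    rw [summable_sigma_of_nonneg (fun _ => norm_nonneg _)]
    refine ⟨fun J => (hFn J).summable, ?_⟩
    have e : (fun J : B => ∑' v : {v : A // β v = J}, ‖g v.1.1‖) = fun J : B => w * ‖f J‖ :=
      funext (fun J => (hFn J).tsum_eq)
    have h5 : Summable (fun J : B => (w : ℝ) * ‖f J‖) := hU.summable.norm.mul_left _
    rw [← e] at h5
    exact h5
  have hs : Summable (fun p : Σ J : B, {v : A // β v = J} => g p.2.1.1) := hsn.of_norm
  have hT : HasSum (fun J : B => (w : ℂ) * f J) (w * a) := hU.mul_left _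
  have hS : HasSum (fun p : Σ J : B, {v : A // β v = J} => g p.2.1.1) (w * a) :=
    hT.sigma_of_hasSum hF hs
  have hV : HasSum (fun v : A => g v) (w * a) := (Equiv.sigmaFiberEquiv β).hasSum_iff.mp hS
  have h6 := (hasSum_subtype_iff_indicator (f := g) (s := A) (a := w * a)).mp hV
  refine h6.congr_fun ?_
  intro J
  by_cases hJ : J ∈ A
  · simp [hJ]
  · simp [hJ]

section

variable {k K : Type} [Field k] [NumberField k] [Field K] [NumberField K] [Algebra k K]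

/-- the counting of the orbits -/
theorem orbit_count2 (x₀ : 𝓞 K) (hx₀ : x₀ ≠ 0) (S : Set (𝓞 K))
    (hS : ∀ v : 𝓞 K, v ∈ S ↔ v ∈ FK k K ∧ ∃ η : (𝓞 K)ˣ, v = (η : 𝓞 K) * x₀) :
    S.ncard = un k K := by
  classical
  have hη : ∀ v : S, ∃ η : (𝓞 K)ˣ, (v : 𝓞 K) = (η : 𝓞 K) * x₀ :=
    fun v => ((hS v.1).mp v.2).2
  choose e he using hη
  let H : Subgroup (𝓞 K)ˣ := (Units.map (algebraMap (𝓞 k) (𝓞 K)).toMonoidHom).range
  let Ψ : S → (𝓞 K)ˣ ⧸ H := fun v => (e v : (𝓞 K)ˣ ⧸ H)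
  have hunit : ∀ a : (𝓞 k)ˣ, ((Units.map (algebraMap (𝓞 k) (𝓞 K)).toMonoidHom a : (𝓞 K)ˣ) : 𝓞 K) =
      algebraMap (𝓞 k) (𝓞 K) (a : 𝓞 k) := fun a => rfl
  have hact : ∀ (a : (𝓞 k)ˣ) (x : 𝓞 K), a • x = algebraMap (𝓞 k) (𝓞 K) (a : 𝓞 k) * x := by
    intro a x
    rw [Units.smul_def, Algebra.smul_def]
  have hcancel : ∀ η η' : (𝓞 K)ˣ, (η : 𝓞 K) * x₀ = (η' : 𝓞 K) * x₀ → η = η' := by
    intro η η' h
    exact Units.ext (mul_right_cancel₀ hx₀ h)
  have hbij : Function.Bijective Ψ := by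
    constructor
    · intro v w h
      have h1 : (e v)⁻¹ * e w ∈ H := QuotientGroup.eq.mp h
      obtain ⟨a, ha⟩ := h1
      have h2 : e w = e v * Units.map (algebraMap (𝓞 k) (𝓞 K)).toMonoidHom a := by
        rw [ha]; group
      have h3 : (w : 𝓞 K) = a • (v : 𝓞 K) := by
        rw [he w, hact, he v, h2, Units.val_mul, hunit]
        ring
      have h4 : Quotient.mk (MulAction.orbitRel (𝓞 k)ˣ (𝓞 K)) (v : 𝓞 K) =
          Quotient.mk (MulAction.orbitRel (𝓞 k)ˣ (𝓞 K)) (w : 𝓞 K) := by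
        apply Quotient.sound
        change (v : 𝓞 K) ∈ MulAction.orbit (𝓞 k)ˣ (w : 𝓞 K)
        refine ⟨a⁻¹, ?_⟩
        change a⁻¹ • (w : 𝓞 K) = v
        rw [h3, inv_smul_smul]
      have h5 := ((hS v.1).mp v.2).1.2
      have h6 := ((hS w.1).mp w.2).1.2
      apply Subtype.ext
      rw [h5, h6, h4]
    · intro c
      obtain ⟨η, rfl⟩ := QuotientGroup.mk_surjective c
      set v : 𝓞 K := (η : 𝓞 K) * x₀ with hv
      have hv0 : v ≠ 0 := mul_ne_zero η.ne_zero hx₀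
      set w : 𝓞 K := Quotient.out (Quotient.mk (MulAction.orbitRel (𝓞 k)ˣ (𝓞 K)) v) with hw
      have hwv : Quotient.mk (MulAction.orbitRel (𝓞 k)ˣ (𝓞 K)) w =
          Quotient.mk (MulAction.orbitRel (𝓞 k)ˣ (𝓞 K)) v := Quotient.out_eq _
      have h1 : w ∈ MulAction.orbit (𝓞 k)ˣ v := Quotient.exact hwv
      obtain ⟨a, ha⟩ := h1
      have ha' : w = a • v := ha.symm
      have hlw : w = ((Units.map (algebraMap (𝓞 k) (𝓞 K)).toMonoidHom a * η : (𝓞 K)ˣ) :
          𝓞 K) * x₀ := by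
        rw [ha', hact, hv, Units.val_mul, hunit]
        ring
      have hw0 : w ≠ 0 := by
        rw [hlw]
        exact mul_ne_zero (Units.ne_zero _) hx₀
      have hwF : w ∈ FK k K := ⟨hw0, by rw [hwv]⟩
      have hwS : w ∈ S := (hS w).mpr ⟨hwF, _, hlw⟩
      refine ⟨⟨w, hwS⟩, ?_⟩
      have h3 : e ⟨w, hwS⟩ = Units.map (algebraMap (𝓞 k) (𝓞 K)).toMonoidHom a * η := by
        apply hcancel
        rw [← he ⟨w, hwS⟩]
        exact hlw
      change ((e ⟨w, hwS⟩ : (𝓞 K)ˣ) : (𝓞 K)ˣ ⧸ H) = (η : (𝓞 K)ˣ ⧸ H)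
      rw [h3, mul_comm]
      apply Eq.symm
      rw [QuotientGroup.eq]
      refine ⟨a, ?_⟩
      group
  have h1 := Nat.card_eq_of_bijective Ψ hbij
  rw [← Nat.card_coe_set_eq, h1]
  rfl

end

theorem pf_TWL (hUNI : T_UNI) : T_TWL := by
  classical
  intro k K _ _ _ _ _ _ _ _ 𝔟 h g a hgh hs
  have hun : 0 < un k K := hUNI k K
  have hb0 : (𝔟 : Ideal (𝓞 K)) ≠ ⊥ := nonZeroDivisors.ne_zero 𝔟.2
  set A : Set (𝓞 K) := {x | x ∈ (𝔟 : Ideal (𝓞 K)) ∧ x ∈ FK k K} with hA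
  set B : Set (Ideal (𝓞 K))⁰ := {J | ClassGroup.mk0 J = (ClassGroup.mk0 𝔟)⁻¹} with hB
  have hex : ∀ x : 𝓞 K, ∃ J : (Ideal (𝓞 K))⁰, x ∈ (𝔟 : Ideal (𝓞 K)) → x ≠ 0 →
      Ideal.span {x} = (J : Ideal (𝓞 K)) * 𝔟 := by
    intro x
    by_cases hx : x ∈ (𝔟 : Ideal (𝓞 K)) ∧ x ≠ 0
    · have h1 : Ideal.span {x} ≤ (𝔟 : Ideal (𝓞 K)) := by
        rw [Ideal.span_singleton_le_iff_mem]; exact hx.1
      obtain ⟨J, hJ⟩ := Ideal.dvd_iff_le.mpr h1
      have hJ0 : J ≠ ⊥ := by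
        rintro rfl
        have h2 : Ideal.span {x} = (⊥ : Ideal (𝓞 K)) := by rw [hJ]; simp
        exact hx.2 (Ideal.span_singleton_eq_bot.mp h2)
      refine ⟨⟨J, mem_nonZeroDivisors_of_ne_zero hJ0⟩, fun _ _ => ?_⟩
      rw [hJ, mul_comm]
    · exact ⟨1, fun h1 h2 => absurd ⟨h1, h2⟩ hx⟩
  choose j hj using hex
  have hcl : ∀ x ∈ (𝔟 : Ideal (𝓞 K)), x ≠ 0 → ClassGroup.mk0 (j x) = (ClassGroup.mk0 𝔟)⁻¹ := by
    intro x hx hx0
    have h1 := hj x hx hx0
    rw [eq_inv_iff_mul_eq_one, ← map_mul, ClassGroup.mk0_eq_one_iff]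
    refine ⟨⟨x, ?_⟩⟩
    change ((j x * 𝔟 : (Ideal (𝓞 K))⁰) : Ideal (𝓞 K)) = Submodule.span (𝓞 K) {x}
    rw [← Ideal.submodule_span_eq] at h1
    rw [h1]
    rfl
  have hjB : ∀ x ∈ A, j x ∈ B := fun x hx => hcl x hx.1 hx.2.1
  have hfib : ∀ J ∈ B, {x | x ∈ A ∧ j x = J}.ncard = un k K := by
    intro J hJ
    have h1 : ClassGroup.mk0 (J * 𝔟) = 1 := by
      have hJ' : ClassGroup.mk0 J = (ClassGroup.mk0 𝔟)⁻¹ := hJ
      rw [map_mul, hJ', inv_mul_cancel]
    rw [ClassGroup.mk0_eq_one_iff] at h1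
    obtain ⟨x₀, hx⟩ := h1.principal
    have hx' : (J : Ideal (𝓞 K)) * 𝔟 = Ideal.span {x₀} := hx
    have hxb : x₀ ∈ (𝔟 : Ideal (𝓞 K)) := by
      have : x₀ ∈ (J : Ideal (𝓞 K)) * 𝔟 := by rw [hx']; exact Ideal.mem_span_singleton_self x₀
      exact Ideal.mul_le_right this
    have hJ0 : (J : Ideal (𝓞 K)) ≠ ⊥ := nonZeroDivisors.ne_zero J.2
    have hxne : x₀ ≠ 0 := by
      rintro rfl
      rw [Ideal.span_singleton_eq_bot.mpr rfl] at hx'
      rcases Ideal.mul_eq_bot.mp hx' with h | h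
      · exact hJ0 h
      · exact hb0 h
    apply orbit_count2 x₀ hxne
    intro v
    constructor
    · rintro ⟨hv, hjv⟩
      refine ⟨hv.2, ?_⟩
      have h2 := hj v hv.1 hv.2.1
      rw [hjv, hx', Ideal.span_singleton_eq_span_singleton] at h2
      obtain ⟨η, hη⟩ := h2
      refine ⟨η⁻¹, ?_⟩
      rw [← hη, mul_comm v, ← mul_assoc, Units.inv_mul, one_mul]
    · rintro ⟨hvF, η, rfl⟩
      have hvb : (η : 𝓞 K) * x₀ ∈ (𝔟 : Ideal (𝓞 K)) := Ideal.mul_mem_left _ _ hxb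
      refine ⟨⟨hvb, hvF⟩, ?_⟩
      have h2 := hj _ hvb hvF.1
      have h3 : Ideal.span {(η : 𝓞 K) * x₀} = Ideal.span {x₀} := by
        rw [Ideal.span_singleton_eq_span_singleton]
        exact associated_unit_mul_left x₀ (η : 𝓞 K) η.isUnit
      rw [h3, ← hx'] at h2
      exact Subtype.ext (mul_right_cancel₀ hb0 h2).symm
  have hgf : ∀ x ∈ A, g x = h (j x) := by
    intro x hx
    exact hgh x (j x) hx.2.1 (hj x hx.1 hx.2.1)
  have hfin := hasSum_fib2 A B j (un k K) hun hjB hfib g h hgf a (hs.congr_fun (by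
      intro v
      by_cases hv : v ∈ B
      · rw [if_pos hv]
        exact (if_pos hv).symm
      · rw [if_neg hv]
        exact (if_neg hv).symm))
  refine hfin.congr_fun ?_
  intro x
  by_cases hx : x ∈ A
  · rw [if_pos hx]
    exact (if_pos hx)
  · rw [if_neg hx]
    exact (if_neg hx)

end Pool.Agent.H35.CMC
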